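import Pool.Agent.R289.NotReg

set_option autoImplicit false
set_option linter.unusedSectionVars false

/-!
# A translation invariant Banach function space on `ℤ` whose convolution operators are regular

The space is `E = {F : ℤ → ℂ | ∑ (1 + |n|)² |F n|² < ∞}`, a convolution algebra which is isomorphic
to `ℓ²` as a Banach lattice.
-/

namespace Pool.Agent.Results.MP_3f33d0_an.WeightedL2

open scoped ENNReal
open Filter Topology Pool.Agent.R289.Conv Pool.Agent.R289.L1 Pool.Agent.R289.RS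
  Pool.Agent.R289.NotReg

/-- The Banach space `E`, regarded through the linear map `ι` as a space of complex functions on
the discrete group `G`, is a Banach function space on `G`. -/
structure IsBanachFunctionSpace {G E : Type} [NormedAddCommGroup E] [NormedSpace ℂ E]
    (ι : E →ₗ[ℂ] (G → ℂ)) : Prop where
  complete : CompleteSpace E
  injective : Function.Injective ι
  solid : ∀ (f : E) (g : G → ℂ), (∀ x, ‖g x‖ ≤ ‖ι f x‖) → ∃ g' : E, ι g' = g ∧ ‖g'‖ ≤ ‖f‖

/-- The space is invariant under the left translations `F ↦ F (t⁻¹ ·)` and the right translations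
`F ↦ F (· t)`. -/
def TranslationInvariant {G E : Type} [Group G] [NormedAddCommGroup E] [NormedSpace ℂ E]
    (ι : E →ₗ[ℂ] (G → ℂ)) : Prop :=
  ∀ (f : E) (t : G), (∃ g : E, ∀ x, ι g x = ι f (t⁻¹ * x)) ∧ (∃ g : E, ∀ x, ι g x = ι f (x * t))

/-- The linear map `S` maps nonnegative functions to nonnegative functions. -/
def IsPositive {G E : Type} [NormedAddCommGroup E] [NormedSpace ℂ E]
    (ι : E →ₗ[ℂ] (G → ℂ)) (S : E →ₗ[ℂ] E) : Prop :=
  ∀ f : E, (∀ x, 0 ≤ (ι f x).re ∧ (ι f x).im = 0) → ∀ x, 0 ≤ (ι (S f) x).re ∧ (ι (S f) x).im = 0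

/-- The operator `T` is a complex linear combination of positive operators. -/
def IsRegular {G E : Type} [NormedAddCommGroup E] [NormedSpace ℂ E]
    (ι : E →ₗ[ℂ] (G → ℂ)) (T : E →L[ℂ] E) : Prop :=
  ∃ (n : ℕ) (c : Fin n → ℂ) (S : Fin n → (E →ₗ[ℂ] E)),
    (∀ i, IsPositive ι (S i)) ∧ ∀ f, T f = ∑ i, c i • S i f

/-- The operator `T` commutes with all right translations `(ρ_s F)(x) = F (x s)`. -/
def CommutesRight {G E : Type} [Group G] [NormedAddCommGroup E] [NormedSpace ℂ E]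
    (ι : E →ₗ[ℂ] (G → ℂ)) (T : E →L[ℂ] E) : Prop :=
  ∀ (s : G) (f g : E), (∀ x, ι g x = ι f (x * s)) → ∀ x, ι (T g) x = ι (T f) (x * s)

/-- the group -/
abbrev Z : Type := Multiplicative ℤ

/-- the weight `1 + |n|` -/
noncomputable def w (x : Z) : ℝ := 1 + |((Multiplicative.toAdd x : ℤ) : ℝ)|

theorem w_pos (x : Z) : 0 < w x := by unfold w; positivity

theorem one_le_w (x : Z) : 1 ≤ w x := by
  unfold w
  have := abs_nonneg ((Multiplicative.toAdd x : ℤ) : ℝ)
  linarith

theorem w_ne (x : Z) : (w x : ℂ) ≠ 0 := by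
  exact_mod_cast (w_pos x).ne'

theorem w_mul (x y : Z) : w (x * y) ≤ w x * w y := by
  unfold w
  rw [toAdd_mul, Int.cast_add]
  have h1 := abs_add_le ((Multiplicative.toAdd x : ℤ) : ℝ) ((Multiplicative.toAdd y : ℤ) : ℝ)
  have h2 := abs_nonneg ((Multiplicative.toAdd x : ℤ) : ℝ)
  have h3 := abs_nonneg ((Multiplicative.toAdd y : ℤ) : ℝ)
  nlinarith

theorem w_add (x y : Z) : w x ≤ w y + w (x * y⁻¹) := by
  unfold w
  rw [toAdd_mul, toAdd_inv, Int.cast_add, Int.cast_neg]
  have h1 := abs_add_le ((Multiplicative.toAdd y : ℤ) : ℝ)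
    (((Multiplicative.toAdd x : ℤ) : ℝ) + -((Multiplicative.toAdd y : ℤ) : ℝ))
  have e : ((Multiplicative.toAdd y : ℤ) : ℝ) +
    (((Multiplicative.toAdd x : ℤ) : ℝ) + -((Multiplicative.toAdd y : ℤ) : ℝ)) =
    ((Multiplicative.toAdd x : ℤ) : ℝ) := by ring
  rw [e] at h1
  linarith

theorem summable_w : Summable fun x : Z => (w x)⁻¹ ^ 2 := by
  have h : Summable fun n : ℤ => (1 + |(n : ℝ)|)⁻¹ ^ 2 := by
    have h1 : Summable fun n : ℤ => 1 / (n : ℝ) ^ 2 := Real.summable_one_div_int_pow.2 (by norm_num)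
    have h2 : Summable fun n : ℤ => if n = 0 then (1 : ℝ) else 0 :=
      summable_of_ne_finset_zero (s := {0}) fun n hn => by
        rw [if_neg (by simpa using hn)]
    refine Summable.of_nonneg_of_le (fun n => by positivity) (fun n => ?_) (h1.add h2)
    by_cases hn : n = 0
    · subst hn; simp
    · rw [if_neg hn, add_zero, one_div, inv_pow]
      have h3 : (0 : ℝ) < |(n : ℝ)| := abs_pos.2 (by exact_mod_cast hn)
      rw [← sq_abs (n : ℝ)]
      gcongr
      linarith
  exact h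

theorem sq_summable (f : Ell Z 2) : Summable fun x => ‖f x‖ ^ 2 := by
  have := (memℓp_gen_iff hp2).1 (lp.memℓp f)
  simpa using this

theorem memlp_of_sq (f : Z → ℂ) (h : Summable fun x => ‖f x‖ ^ 2) : Memℓp f 2 := by
  rw [memℓp_gen_iff hp2]
  simpa using h

theorem memlp_of_le (f : Z → ℂ) (g : Ell Z 2) (h : ∀ x, ‖f x‖ ≤ ‖g x‖) : Memℓp f 2 :=
  memlp_of_sq f (Summable.of_nonneg_of_le (fun _ => by positivity)
    (fun x => pow_le_pow_left₀ (norm_nonneg _) (h x) 2) (sq_summable g))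

theorem norm_le_of_le (f g : Ell Z 2) (h : ∀ x, ‖f x‖ ≤ ‖g x‖) : ‖f‖ ≤ ‖g‖ := by
  rw [lp.norm_eq_tsum_rpow hp2, lp.norm_eq_tsum_rpow hp2]
  refine Real.rpow_le_rpow (tsum_nonneg fun _ => by positivity) ?_ (by positivity)
  refine Summable.tsum_le_tsum (fun x => ?_) ((memℓp_gen_iff hp2).1 (lp.memℓp f))
    ((memℓp_gen_iff hp2).1 (lp.memℓp g))
  exact Real.rpow_le_rpow (norm_nonneg _) (h x) (by positivity)

/-- The map `ι f = f / w` from `ℓ²` onto the weighted space. -/
noncomputable def iot : Ell Z 2 →ₗ[ℂ] (Z → ℂ) where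
  toFun f x := f x / w x
  map_add' f g := by
    funext x
    show (f x + g x) / w x = f x / w x + g x / w x
    rw [add_div]
  map_smul' c f := by
    funext x
    show (c * f x) / w x = c * (f x / w x)
    rw [mul_div_assoc]

theorem iot_apply (f : Ell Z 2) (x : Z) : iot f x = f x / w x := rfl

theorem norm_iot (f : Ell Z 2) (x : Z) : ‖iot f x‖ = ‖f x‖ / w x := by
  rw [iot_apply, norm_div, Complex.norm_real, Real.norm_of_nonneg (w_pos x).le]

theorem isBFS : IsBanachFunctionSpace iot where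
  complete := inferInstance
  injective := by
    intro f g h
    ext x
    have h1 := congrFun h x
    rw [iot_apply, iot_apply, div_left_inj' (w_ne x)] at h1
    exact h1
  solid := by
    intro f g h
    have h1 : ∀ x, ‖g x * w x‖ ≤ ‖f x‖ := by
      intro x
      have h2 := h x
      rw [norm_iot, le_div_iff₀ (w_pos x)] at h2
      rwa [norm_mul, Complex.norm_real, Real.norm_of_nonneg (w_pos x).le]
    refine ⟨⟨fun x => g x * w x, memlp_of_le _ f h1⟩, ?_, ?_⟩
    · funext x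
      rw [iot_apply]
      show g x * w x / w x = g x
      rw [mul_div_assoc, div_self (w_ne x), mul_one]
    · exact norm_le_of_le _ _ h1

theorem translate (f : Ell Z 2) (t : Z) : ∃ g : Ell Z 2, ∀ x, iot g x = iot f (x * t) := by
  set f' : Ell Z 2 := (w t : ℂ) • R hp2 t f with hf'
  have h1 : ∀ x, ‖iot f (x * t) * w x‖ ≤ ‖f' x‖ := by
    intro x
    have e : f' x = (w t : ℂ) * f (x * t) := rfl
    rw [norm_mul, norm_iot, e, norm_mul, Complex.norm_real, Complex.norm_real,
      Real.norm_of_nonneg (w_pos x).le, Real.norm_of_nonneg (w_pos t).le, div_mul_eq_mul_div,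
      div_le_iff₀ (w_pos _), mul_comm]
    have h2 : w x ≤ w t * w (x * t) := by
      have h3 := w_mul t⁻¹ (x * t)
      have h4 : t⁻¹ * (x * t) = x := by rw [mul_comm x t, inv_mul_cancel_left]
      have h5 : w t⁻¹ = w t := by
        unfold w
        rw [toAdd_inv, Int.cast_neg, abs_neg]
      rwa [h4, h5] at h3
    calc w x * ‖f (x * t)‖ ≤ (w t * w (x * t)) * ‖f (x * t)‖ :=
          mul_le_mul_of_nonneg_right h2 (norm_nonneg _)
      _ = _ := by ring
  refine ⟨⟨fun x => iot f (x * t) * w x, memlp_of_le _ f' h1⟩, fun x => ?_⟩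
  rw [iot_apply]
  show iot f (x * t) * w x / w x = _
  rw [mul_div_assoc, div_self (w_ne x), mul_one]

theorem pos_iff (f : Ell Z 2) : Pos f ↔ ∀ x, 0 ≤ (iot f x).re ∧ (iot f x).im = 0 := by
  refine forall_congr' fun x => ?_
  rw [iot_apply, Complex.div_ofReal_re, Complex.div_ofReal_im]
  constructor
  · rintro ⟨h1, h2⟩
    exact ⟨div_nonneg h1 (w_pos x).le, by rw [h2, zero_div]⟩
  · rintro ⟨h1, h2⟩
    constructor
    · by_contra h
      exact absurd h1 (not_le.2 (div_neg_of_neg_of_pos (not_le.1 h) (w_pos x)))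
    · rcases div_eq_zero_iff.1 h2 with h | h
      · exact h
      · exact absurd h (w_pos x).ne'

section convolution

/-- absolute value -/
noncomputable def absE (f : Ell Z 2) : Ell Z 2 :=
  ⟨fun x => (‖f x‖ : ℂ), memlp_of_le _ f fun x => by rw [Complex.norm_real, norm_norm]⟩

theorem summable_div (f : Ell Z 2) : Summable fun x => ‖f x‖ / w x := by
  refine Summable.of_nonneg_of_le (fun x => div_nonneg (norm_nonneg _) (w_pos x).le) (fun x => ?_)
    ((sq_summable f).add summable_w)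
  rw [div_eq_mul_inv]
  have h1 : 0 ≤ ‖f x‖ := norm_nonneg _
  have h2 : 0 ≤ (w x)⁻¹ := inv_nonneg.2 (w_pos x).le
  nlinarith [sq_nonneg (‖f x‖ - (w x)⁻¹)]

/-- `|f| / w` as an element of `ℓ¹` -/
noncomputable def nu (f : Ell Z 2) : Ell Z 1 :=
  ⟨fun x => ((‖f x‖ / w x : ℝ) : ℂ), memlp_of_summable _ (by
    refine (summable_div f).congr fun x => ?_
    rw [Complex.norm_real, Real.norm_of_nonneg (div_nonneg (norm_nonneg _) (w_pos x).le)])⟩

theorem summable_a (h k : Ell Z 2) (x : Z) :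
    Summable fun y => ‖h y‖ / w y * ‖k (x * y⁻¹)‖ := by
  refine Summable.of_nonneg_of_le
    (fun y => mul_nonneg (div_nonneg (norm_nonneg _) (w_pos y).le) (norm_nonneg _)) (fun y => ?_)
    ((summable_div h).mul_right ‖k‖)
  exact mul_le_mul_of_nonneg_left (lp.norm_apply_le_norm (by norm_num) k _)
    (div_nonneg (norm_nonneg _) (w_pos y).le)

theorem tsum_a (h k : Ell Z 2) (x : Z) :
    ((∑' y, ‖h y‖ / w y * ‖k (x * y⁻¹)‖ : ℝ) : ℂ) = Cop hp2 (nu h) (absE k) x := by
  rw [Cop_apply, conv, Complex.ofReal_tsum]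
  refine tsum_congr fun y => ?_
  rw [Complex.ofReal_mul, mul_comm x y⁻¹]
  rfl

theorem equiv_a (x : Z) (F : Z → ℝ) : (∑' y, F (x * y⁻¹)) = ∑' y, F y := by
  have := (Equiv.divLeft x).tsum_eq F
  rw [← this]
  refine tsum_congr fun y => ?_
  rw [Equiv.divLeft_apply, div_eq_mul_inv]

theorem summable_b (h k : Ell Z 2) (x : Z) :
    Summable fun y => ‖h y‖ * (‖k (x * y⁻¹)‖ / w (x * y⁻¹)) := by
  have h1 := summable_a k h x
  have h2 := (Equiv.divLeft x).summable_iff.2 h1
  refine h2.congr fun y => ?_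
  show ‖k (x / y)‖ / w (x / y) * ‖h (x * (x / y)⁻¹)‖ = _
  have e1 : x * (x / y)⁻¹ = y := by
    rw [inv_div, mul_div_assoc', mul_comm, mul_div_cancel_right]
  have e2 : x / y = x * y⁻¹ := div_eq_mul_inv x y
  rw [e1, e2, mul_comm]

theorem tsum_b (h k : Ell Z 2) (x : Z) :
    ((∑' y, ‖h y‖ * (‖k (x * y⁻¹)‖ / w (x * y⁻¹)) : ℝ) : ℂ) = Cop hp2 (nu k) (absE h) x := by
  rw [← tsum_a]
  congr 1
  rw [← equiv_a x (fun y => ‖k y‖ / w y * ‖h (x * y⁻¹)‖)]
  refine tsum_congr fun y => ?_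
  rw [mul_inv_rev, inv_inv, mul_left_comm, mul_inv_cancel, mul_one, mul_comm]

/-- the pointwise bound for the terms of the weighted convolution -/
theorem term_le (h k : Ell Z 2) (φ : Z → ℂ) (hφ : ∀ x, ‖φ x‖ ≤ ‖iot k x‖) (x y : Z) :
    w x * ‖iot h y * φ (x * y⁻¹)‖ ≤ ‖h y‖ / w y * ‖k (x * y⁻¹)‖ +
      ‖h y‖ * (‖k (x * y⁻¹)‖ / w (x * y⁻¹)) := by
  rw [norm_mul, norm_iot]
  have h1 := hφ (x * y⁻¹)
  rw [norm_iot] at h1
  have a1 := w_pos y
  have a2 := w_pos (x * y⁻¹)
  have h2 : w x * (‖h y‖ / w y * ‖φ (x * y⁻¹)‖) ≤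
      (w y + w (x * y⁻¹)) * (‖h y‖ / w y * (‖k (x * y⁻¹)‖ / w (x * y⁻¹))) := by
    have b1 := w_add x y
    have b2 : 0 ≤ ‖h y‖ / w y := div_nonneg (norm_nonneg _) a1.le
    exact mul_le_mul b1 (mul_le_mul_of_nonneg_left h1 b2)
      (mul_nonneg b2 (norm_nonneg _)) (by positivity)
  refine h2.trans (le_of_eq ?_)
  field_simp
  ring

theorem summable_term (h k : Ell Z 2) (φ : Z → ℂ) (hφ : ∀ x, ‖φ x‖ ≤ ‖iot k x‖) (x : Z) :
    Summable fun y => ‖iot h y * φ (x * y⁻¹)‖ := by
  refine Summable.of_nonneg_of_le (fun _ => norm_nonneg _) (fun y => ?_)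
    ((summable_a h k x).add (summable_b h k x))
  refine le_trans ?_ (term_le h k φ hφ x y)
  have := norm_nonneg (iot h y * φ (x * y⁻¹))
  have := one_le_w x
  nlinarith

theorem mem_conv (h k : Ell Z 2) (φ : Z → ℂ) (hφ : ∀ x, ‖φ x‖ ≤ ‖iot k x‖) :
    Memℓp (fun x => (∑' y, iot h y * φ (x * y⁻¹)) * w x) 2 := by
  refine memlp_of_le _ (Cop hp2 (nu h) (absE k) + Cop hp2 (nu k) (absE h)) fun x => ?_
  have e1 : (Cop hp2 (nu h) (absE k) + Cop hp2 (nu k) (absE h)) x =
      Cop hp2 (nu h) (absE k) x + Cop hp2 (nu k) (absE h) x := rfl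
  rw [e1, ← tsum_a, ← tsum_b, ← Complex.ofReal_add, Complex.norm_real,
    ← (summable_a h k x).tsum_add (summable_b h k x), norm_mul, Complex.norm_real,
    Real.norm_of_nonneg (w_pos x).le]
  refine le_trans ?_ (Real.le_norm_self _)
  calc ‖∑' y, iot h y * φ (x * y⁻¹)‖ * w x
      ≤ (∑' y, ‖iot h y * φ (x * y⁻¹)‖) * w x :=
        mul_le_mul_of_nonneg_right (norm_tsum_le_tsum_norm (summable_term h k φ hφ x))
          (w_pos x).le
    _ = ∑' y, w x * ‖iot h y * φ (x * y⁻¹)‖ := by rw [mul_comm, tsum_mul_left]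
    _ ≤ _ := Summable.tsum_le_tsum (term_le h k φ hφ x)
        ((summable_term h k φ hφ x).mul_left _) ((summable_a h k x).add (summable_b h k x))

/-- convolution with `φ` as a linear map -/
noncomputable def Sop (k : Ell Z 2) (φ : Z → ℂ) (hφ : ∀ x, ‖φ x‖ ≤ ‖iot k x‖) :
    Ell Z 2 →ₗ[ℂ] Ell Z 2 where
  toFun h := ⟨fun x => (∑' y, iot h y * φ (x * y⁻¹)) * w x, mem_conv h k φ hφ⟩
  map_add' h h' := by
    ext x
    show (∑' y, iot (h + h') y * φ (x * y⁻¹)) * w x =
      (∑' y, iot h y * φ (x * y⁻¹)) * w x + (∑' y, iot h' y * φ (x * y⁻¹)) * w x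
    rw [← add_mul, ← (summable_term h k φ hφ x).of_norm.tsum_add
      (summable_term h' k φ hφ x).of_norm]
    congr 1
    refine tsum_congr fun y => ?_
    rw [map_add, Pi.add_apply, add_mul]
  map_smul' c h := by
    ext x
    show (∑' y, iot (c • h) y * φ (x * y⁻¹)) * w x =
      c * ((∑' y, iot h y * φ (x * y⁻¹)) * w x)
    rw [← mul_assoc, ← tsum_mul_left]
    congr 1
    refine tsum_congr fun y => ?_
    rw [map_smul, Pi.smul_apply, smul_eq_mul, mul_assoc]

theorem iot_Sop (k : Ell Z 2) (φ : Z → ℂ) (hφ : ∀ x, ‖φ x‖ ≤ ‖iot k x‖) (h : Ell Z 2) (x : Z) :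
    iot (Sop k φ hφ h) x = ∑' y, iot h y * φ (x * y⁻¹) := by
  rw [iot_apply]
  show (∑' y, iot h y * φ (x * y⁻¹)) * w x / w x = _
  rw [mul_div_assoc, div_self (w_ne x), mul_one]

theorem Sop_pos (k : Ell Z 2) (φ : Z → ℝ) (hφ : ∀ x, ‖(φ x : ℂ)‖ ≤ ‖iot k x‖) (h0 : ∀ x, 0 ≤ φ x) :
    IsPositive iot (Sop k (fun x => (φ x : ℂ)) hφ) := by
  intro f hf x
  rw [iot_Sop]
  have e : ∀ y, iot f y * (φ (x * y⁻¹) : ℂ) = (((iot f y).re * φ (x * y⁻¹) : ℝ) : ℂ) := by
    intro y
    apply Complex.ext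
    · rw [Complex.re_mul_ofReal, Complex.ofReal_re]
    · rw [Complex.im_mul_ofReal, (hf y).2, zero_mul, Complex.ofReal_im]
  simp only [e]
  rw [← Complex.ofReal_tsum, Complex.ofReal_re, Complex.ofReal_im]
  exact ⟨tsum_nonneg fun y => mul_nonneg (hf y).1 (h0 _), rfl⟩

end convolution

/-- the element `e_y` with `ι e_y` the point mass at `y` -/
noncomputable def ey (y : Z) : Ell Z 2 := (w y : ℂ) • dg y

theorem iot_ey (y x : Z) : iot (ey y) x = if x = y then 1 else 0 := by
  rw [iot_apply]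
  show (w y : ℂ) * dg y x / w x = _
  rw [dg_apply]
  split_ifs with h
  · rw [h, mul_one, div_self (w_ne y)]
  · rw [mul_zero, zero_div]

theorem hasSum_ey (f : Ell Z 2) : HasSum (fun y => iot f y • ey y) f := by
  classical
  have h := lp.hasSum_single (E := fun _ : Z => ℂ) (p := 2) (by norm_num) f
  convert h using 2 with y
  ext x
  show iot f y * ((w y : ℂ) * dg y x) = _
  rw [iot_apply, dg_apply]
  by_cases hx : x = y
  · subst hx
    rw [if_pos rfl, lp.single_apply_self, mul_one, div_mul_cancel₀ _ (w_ne x)]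
  · rw [lp.single_apply_ne _ _ _ hx, if_neg hx, mul_zero, mul_zero]

/-- evaluation `f ↦ ι f x` is continuous -/
noncomputable def eviot (x : Z) : Ell Z 2 →L[ℂ] ℂ := ((w x : ℂ)⁻¹) • evp (p := 2) x

theorem eviot_apply (x : Z) (f : Ell Z 2) : eviot x f = iot f x := by
  show (w x : ℂ)⁻¹ * f x = f x / w x
  rw [div_eq_inv_mul]

/-- an operator commuting with translations is a convolution operator -/
theorem commuting (T : Ell Z 2 →L[ℂ] Ell Z 2) (hT : CommutesRight iot T) (f : Ell Z 2) (x : Z) :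
    iot (T f) x = ∑' y, iot f y * iot (T (ey 1)) (x * y⁻¹) := by
  have h1 := (hasSum_ey f).mapL T
  have h2 := h1.mapL (eviot x)
  have h3 : eviot x (T f) = ∑' y, eviot x (T (iot f y • ey y)) := h2.tsum_eq.symm
  rw [eviot_apply] at h3
  rw [h3]
  refine tsum_congr fun y => ?_
  rw [map_smul, map_smul, eviot_apply, smul_eq_mul]
  congr 1
  refine hT y⁻¹ (ey 1) (ey y) (fun z => ?_) x
  rw [iot_ey, iot_ey]
  by_cases h : z = y
  · rw [if_pos h, if_pos (by rw [h, mul_inv_cancel])]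
  · rw [if_neg h, if_neg (fun h' => h (by rwa [mul_inv_eq_one] at h'))]

theorem regular_of_commuting (T : Ell Z 2 →L[ℂ] Ell Z 2) (hT : CommutesRight iot T) :
    IsRegular iot T := by
  set k := T (ey 1) with hk
  set F := iot k with hF
  have b1 : ∀ x, ‖((max (F x).re 0 : ℝ) : ℂ)‖ ≤ ‖iot k x‖ := by
    intro x
    rw [Complex.norm_real, Real.norm_of_nonneg (le_max_right _ _)]
    exact max_le (Complex.re_le_norm _) (norm_nonneg _)
  have b2 : ∀ x, ‖((max (-(F x).re) 0 : ℝ) : ℂ)‖ ≤ ‖iot k x‖ := by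
    intro x
    rw [Complex.norm_real, Real.norm_of_nonneg (le_max_right _ _)]
    exact max_le ((neg_le_abs _).trans (Complex.abs_re_le_norm _)) (norm_nonneg _)
  have b3 : ∀ x, ‖((max (F x).im 0 : ℝ) : ℂ)‖ ≤ ‖iot k x‖ := by
    intro x
    rw [Complex.norm_real, Real.norm_of_nonneg (le_max_right _ _)]
    exact max_le (Complex.im_le_norm _) (norm_nonneg _)
  have b4 : ∀ x, ‖((max (-(F x).im) 0 : ℝ) : ℂ)‖ ≤ ‖iot k x‖ := by
    intro x
    rw [Complex.norm_real, Real.norm_of_nonneg (le_max_right _ _)]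
    exact max_le ((neg_le_abs _).trans (Complex.abs_im_le_norm _)) (norm_nonneg _)
  refine ⟨4, ![1, -1, Complex.I, -Complex.I],
    ![Sop k _ b1, Sop k _ b2, Sop k _ b3, Sop k _ b4], ?_, ?_⟩
  · intro i
    fin_cases i
    · exact Sop_pos k _ b1 fun x => le_max_right _ _
    · exact Sop_pos k _ b2 fun x => le_max_right _ _
    · exact Sop_pos k _ b3 fun x => le_max_right _ _
    · exact Sop_pos k _ b4 fun x => le_max_right _ _
  · intro f
    apply isBFS.injective
    funext x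
    rw [commuting T hT, map_sum, Finset.sum_apply, Fin.sum_univ_four]
    simp only [map_smul, Pi.smul_apply, Matrix.cons_val_zero, Matrix.cons_val_one,
      Matrix.cons_val, smul_eq_mul]
    rw [iot_Sop, iot_Sop, iot_Sop, iot_Sop]
    have s1 := (summable_term f k _ b1 x).of_norm
    have s2 := (summable_term f k _ b2 x).of_norm
    have s3 := (summable_term f k _ b3 x).of_norm
    have s4 := (summable_term f k _ b4 x).of_norm
    rw [← tsum_mul_left, ← tsum_mul_left, ← tsum_mul_left, ← tsum_mul_left,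
      ← (s1.mul_left 1).tsum_add (s2.mul_left (-1)),
      ← ((s1.mul_left 1).add (s2.mul_left (-1))).tsum_add (s3.mul_left Complex.I),
      ← (((s1.mul_left 1).add (s2.mul_left (-1))).add (s3.mul_left Complex.I)).tsum_add
        (s4.mul_left (-Complex.I))]
    refine tsum_congr fun y => ?_
    have e1 : ∀ r : ℝ, r = max r 0 - max (-r) 0 := by
      intro r
      rcases le_total 0 r with h | h
      · rw [max_eq_left h, max_eq_right (by linarith), sub_zero]
      · rw [max_eq_right h, max_eq_left (by linarith)]; ring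
    have e2 : iot (T (ey 1)) (x * y⁻¹) = ((F (x * y⁻¹)).re : ℂ) + ((F (x * y⁻¹)).im : ℂ) * Complex.I :=
      (Complex.re_add_im _).symm
    rw [e2, e1 (F (x * y⁻¹)).re, e1 (F (x * y⁻¹)).im]
    push_cast
    have e3 := e1 (F (x * y⁻¹)).re
    have e4 := e1 (F (x * y⁻¹)).im
    rw [← e3, ← e4]
    ring

/-- There are an abelian (hence amenable) discrete group `G` and a Banach function space on `G`
which is invariant under left and right translations, on which some bounded operator is not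
regular, while every bounded operator commuting with all right translations is regular. -/
theorem result : ∃ (G : Type) (_ : CommGroup G) (E : Type) (_ : NormedAddCommGroup E)
    (_ : NormedSpace ℂ E) (ι : E →ₗ[ℂ] (G → ℂ)),
    IsBanachFunctionSpace ι ∧ TranslationInvariant ι ∧
    (∃ T : E →L[ℂ] E, ¬ IsRegular ι T) ∧
    ∀ T : E →L[ℂ] E, CommutesRight ι T → IsRegular ι T := by
  refine ⟨Z, inferInstance, Ell Z 2, inferInstance, inferInstance, iot, isBFS, ?_, ?_,
    regular_of_commuting⟩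
  · intro f t
    refine ⟨?_, translate f t⟩
    obtain ⟨g, hg⟩ := translate f t⁻¹
    refine ⟨g, fun x => ?_⟩
    rw [hg, mul_comm]
  · refine ⟨T (Multiplicative.ofAdd (1 : ℤ)), ?_⟩
    rintro ⟨n, c, S, hS, hT⟩
    refine not_regular (Multiplicative.ofAdd (1 : ℤ)) ?_ n c S ?_ hT
    · intro a b h
      have h2 : (a : ℤ) = (b : ℤ) := by
        have := congrArg Multiplicative.toAdd h
        simpa using this
      exact_mod_cast h2
    · intro i f hf
      rw [pos_iff] at hf ⊢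
      exact hS i f hf

end Pool.Agent.Results.MP_3f33d0_an.WeightedL2
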